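import Pool.Agent.helper48.HG.G

/-!
MP_4e3e45_nt, function-field model of Q1. Let `F` be a finite field of characteristic `p`, let a
power `q = p ^ e` divide `k - 1` and let `2 l < q`. Then a positive constant times `x ^ (l / k)`
polynomials of size at most `x = |F| ^ D` are sums of `l` `k`-th powers of polynomials.
-/

namespace Pool.Agent.Results.MP_4e3e45_nt.FunctionFieldPowers

open Polynomial

theorem result (p e k l : ℕ) (hp : p.Prime) (F : Type) [Field F] [Fintype F] [CharP F p]
    (hk : 1 < k) (hq : p ^ e ∣ k - 1) (hl : 2 * l < p ^ e) :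
    ∃ c : ℝ, 0 < c ∧ ∀ D : ℕ,
      c * (Fintype.card F : ℝ) ^ ((l : ℝ) * D / k) ≤
        Nat.card {f : F[X] // f.natDegree ≤ D ∧
          ∃ x : Fin l → F[X], (∀ i, k * (x i).natDegree ≤ D) ∧ f = ∑ i, x i ^ k} := by
  haveI : Fact p.Prime := ⟨hp⟩
  obtain ⟨a, ha⟩ := hq
  have ha0 : 0 < a := by
    rcases Nat.eq_zero_or_pos a with h | h
    · rw [h, mul_zero] at ha
      omega
    · exact h
  have hk' : k = a * p ^ e + 1 := by
    rw [mul_comm]
    omega
  obtain ⟨c, hc0, hc⟩ := HG48.rep_bound_two (F := F) p e a l ha0 hl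
  refine ⟨c, hc0, fun D => ?_⟩
  have h1 := hc D
  rw [← hk'] at h1
  exact h1

end Pool.Agent.Results.MP_4e3e45_nt.FunctionFieldPowers
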