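import Pool.Agent.helper11.FS.Final5
import Pool.Agent.helper11.FS.Num4
import Pool.Agent.helper11.FS.Nine

/-!
MP_4e3e45_nt, function-field model of Q1. Let `F` be a finite field with `Q` elements, `q = Q ^ e`,
`k = q + 1`. At least `c * B ^ (D / k)` polynomials of degree at most `D` are sums of `l` `k`-th
powers, where: `B = Q ^ l` if `Q ≥ 9` is odd, `k = Q + 1` and `l < k` (the order asked for, for
all `l < k`); `B = min (Q ^ l) (Q * (Q - 2) ^ q)` if `Q ≥ 9` is odd;
`B = min (Q ^ l) ((Q / 4) ^ q)` if `Q ≥ 8`.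
-/

namespace Pool.Agent.Results.MP_4e3e45_nt.NearlyFullRange

open Polynomial

theorem result (F : Type) [Field F] [Fintype F] (e q k l : ℕ) (B : ℝ) (he : 1 ≤ e)
    (hq : q = Fintype.card F ^ e) (hk : k = q + 1)
    (hB : (Odd (Fintype.card F) ∧ 9 ≤ Fintype.card F ∧ e = 1 ∧ l < k ∧
        B = (Fintype.card F : ℝ) ^ l) ∨
      (Odd (Fintype.card F) ∧ 9 ≤ Fintype.card F ∧
        B = min ((Fintype.card F : ℝ) ^ l)
          ((Fintype.card F : ℝ) * ((Fintype.card F : ℝ) - 2) ^ q)) ∨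
      (8 ≤ Fintype.card F ∧
        B = min ((Fintype.card F : ℝ) ^ l) (((Fintype.card F : ℝ) / 4) ^ q))) :
    ∃ c : ℝ, 0 < c ∧ ∀ D : ℕ,
      c * B ^ ((D : ℝ) / k) ≤
        Nat.card {f : F[X] // f.natDegree ≤ D ∧
          ∃ x : Fin l → F[X], (∀ i, k * (x i).natDegree ≤ D) ∧ f = ∑ i, x i ^ k} := by
  subst hq
  subst hk
  have h2 : Odd (Fintype.card F) → (2 : F) ≠ 0 := by
    intro hodd
    apply Ring.two_ne_zero
    intro h
    have h3 := FiniteField.even_card_iff_char_two.1 h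
    rw [← Nat.even_iff] at h3
    exact (Nat.not_even_iff_odd.2 hodd) h3
  rcases hB with ⟨hodd, h9, rfl, hl, rfl⟩ | ⟨hodd, h9, rfl⟩ | ⟨h8, rfl⟩
  · rcases Nat.lt_or_ge (Fintype.card F) 11 with h10 | h11
    · have hQ9 : Fintype.card F = 9 := by
        rcases hodd with ⟨u, hu⟩
        omega
      rw [pow_one] at hl
      obtain ⟨C, hC0, hC⟩ := FS12.main_est9 (F := F) (h2 hodd) hQ9 (Fintype.card F ^ 1)
        (by rw [pow_one, hQ9])
      have hQR : (Fintype.card F : ℝ) = 9 := by exact_mod_cast hQ9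
      refine FS48.rep_of_moment (F := F) 1 l he (y := (9 : ℝ) * (353 / 50) ^ 9)
        (one_le_pow₀ (by rw [hQR]; norm_num)) ?_ le_rfl hC0 hC
      rw [hQR]
      calc (9 : ℝ) ^ l ≤ 9 ^ 9 := pow_le_pow_right₀ (by norm_num) (by omega)
        _ ≤ _ := FS12.nine_full
    have hQ : (11 : ℝ) ≤ (Fintype.card F : ℝ) := by exact_mod_cast h11
    rw [pow_one] at hl
    refine FS48.rep_odd (F := F) 1 l he (h2 hodd) (by omega) (one_le_pow₀ (by linarith)) le_rfl ?_
    rw [pow_one]
    have h3 : Fintype.card F ^ (Fintype.card F - 1) ≤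
        (Fintype.card F - 2) ^ Fintype.card F := FS11.n4_full h11
    have h4 : Fintype.card F ^ l ≤ Fintype.card F * (Fintype.card F - 2) ^ Fintype.card F := by
      calc Fintype.card F ^ l ≤ Fintype.card F ^ (Fintype.card F - 1 + 1) :=
            Nat.pow_le_pow_right (by omega) (by omega)
        _ = Fintype.card F * Fintype.card F ^ (Fintype.card F - 1) := by
            rw [pow_succ, mul_comm]
        _ ≤ _ := Nat.mul_le_mul_left _ h3
    have h5 : ((Fintype.card F - 2 : ℕ) : ℝ) = (Fintype.card F : ℝ) - 2 := by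
      rw [Nat.cast_sub (by omega)]
      norm_num
    rw [← h5]
    exact_mod_cast h4
  · have hQ : (9 : ℝ) ≤ (Fintype.card F : ℝ) := by exact_mod_cast h9
    refine FS48.rep_odd (F := F) e l he (h2 hodd) h9 (le_min (one_le_pow₀ (by linarith)) ?_)
      (min_le_left _ _) (min_le_right _ _)
    have h3 : (1 : ℝ) ≤ ((Fintype.card F : ℝ) - 2) ^ (Fintype.card F ^ e) :=
      one_le_pow₀ (by linarith)
    nlinarith
  · have hQ : (8 : ℝ) ≤ (Fintype.card F : ℝ) := by exact_mod_cast h8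
    exact FS48.rep_all (F := F) e l he h8 (le_min (one_le_pow₀ (by linarith))
      (one_le_pow₀ (by linarith))) (min_le_left _ _) (min_le_right _ _)

end Pool.Agent.Results.MP_4e3e45_nt.NearlyFullRange
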