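import Mathlib

open Filter

namespace Pool.Agent.Results.MP_4e3e45_nt.TopCase

/-- The positive integers `n ≤ x` that are sums of `l` `k`-th powers of non-negative integers. -/
def sums (k l : ℕ) (x : ℝ) : Set ℕ :=
  {n : ℕ | 0 < n ∧ (n : ℝ) ≤ x ∧ ∃ f : Fin l → ℕ, n = ∑ i, f i ^ k}

/-- `A k l x` is the counting function `A_{k,l}(x)`. -/
noncomputable def A (k l : ℕ) (x : ℝ) : ℕ := (sums k l x).ncard

theorem sums_finite (k l : ℕ) (x : ℝ) : (sums k l x).Finite := by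
  refine (Set.finite_Iic ⌊x⌋₊).subset ?_
  rintro n ⟨_, h, _⟩
  exact Nat.le_floor h

theorem A_succ_le {k l : ℕ} (hk : 1 ≤ k) {x : ℝ} (hx : 1 ≤ x) :
    (A k (l + 1) x : ℝ) ≤ ((A k l x : ℝ) + 1) * (x ^ ((1 : ℝ) / k) + 1) := by
  classical
  set Y : ℕ := ⌊x ^ ((1 : ℝ) / k)⌋₊ with hY
  have hx0 : (0 : ℝ) ≤ x := by linarith
  have hsub : sums k (l + 1) x ⊆
      (fun p : ℕ × ℕ => p.1 + p.2 ^ k) '' ((insert 0 (sums k l x)) ×ˢ (Set.Iic Y)) := by
    rintro n ⟨hn, hnx, f, hf⟩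
    rw [Fin.sum_univ_castSucc] at hf
    refine ⟨(∑ i : Fin l, f (Fin.castSucc i) ^ k, f (Fin.last l)), ⟨?_, ?_⟩, hf.symm⟩
    · rcases Nat.eq_zero_or_pos (∑ i : Fin l, f (Fin.castSucc i) ^ k) with h0 | h0
      · exact Or.inl h0
      · refine Or.inr ⟨h0, ?_, fun i => f (Fin.castSucc i), rfl⟩
        refine le_trans ?_ hnx
        exact_mod_cast (by omega : ∑ i : Fin l, f (Fin.castSucc i) ^ k ≤ n)
    · refine Nat.le_floor ?_
      have h1 : ((f (Fin.last l) : ℝ)) ^ k ≤ x := by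
        refine le_trans ?_ hnx
        exact_mod_cast (by omega : f (Fin.last l) ^ k ≤ n)
      have hk0 : (k : ℝ) ≠ 0 := by positivity
      calc (f (Fin.last l) : ℝ)
          = (((f (Fin.last l) : ℝ)) ^ k) ^ ((1 : ℝ) / k) := by
            rw [← Real.rpow_natCast, ← Real.rpow_mul (by positivity), mul_one_div_cancel hk0,
              Real.rpow_one]
        _ ≤ x ^ ((1 : ℝ) / k) := Real.rpow_le_rpow (by positivity) h1 (by positivity)
  have hfin : ((insert 0 (sums k l x)) ×ˢ (Set.Iic Y)).Finite :=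
    ((sums_finite k l x).insert 0).prod (Set.finite_Iic Y)
  have h1 : A k (l + 1) x ≤ (A k l x + 1) * (Y + 1) := by
    calc A k (l + 1) x ≤ ((fun p : ℕ × ℕ => p.1 + p.2 ^ k) ''
          ((insert 0 (sums k l x)) ×ˢ (Set.Iic Y))).ncard :=
          Set.ncard_le_ncard hsub (hfin.image _)
      _ ≤ ((insert 0 (sums k l x)) ×ˢ (Set.Iic Y)).ncard := Set.ncard_image_le hfin
      _ = (insert 0 (sums k l x)).ncard * (Set.Iic Y).ncard := Set.ncard_prod
      _ ≤ (A k l x + 1) * (Y + 1) := by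
          refine Nat.mul_le_mul (Set.ncard_insert_le _ _) ?_
          rw [Set.ncard_eq_toFinset_card']
          simp
  have h2 : (Y : ℝ) ≤ x ^ ((1 : ℝ) / k) := Nat.floor_le (by positivity)
  calc (A k (l + 1) x : ℝ) ≤ (((A k l x + 1) * (Y + 1) : ℕ) : ℝ) := by exact_mod_cast h1
    _ = ((A k l x : ℝ) + 1) * ((Y : ℝ) + 1) := by push_cast; ring
    _ ≤ _ := by gcongr

/-- The lower bound of order `x ^ e` at `(k, l)`: for some `c > 0`,
`A_{k,l}(x) > c x ^ e` for all large `x`. -/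
def LowerBound (k l : ℕ) (e : ℝ) : Prop :=
  ∃ c : ℝ, 0 < c ∧ ∃ x₀ : ℝ, ∀ x : ℝ, x₀ ≤ x → c * x ^ e < (A k l x : ℝ)

theorem LowerBound.pred {k l : ℕ} (hk : 1 ≤ k) {e : ℝ} (he : (1 : ℝ) / k < e)
    (h : LowerBound k (l + 1) e) : LowerBound k l (e - 1 / k) := by
  obtain ⟨c, hc, x₀, h⟩ := h
  have hpos : 0 < e - 1 / k := by linarith
  have htend : Tendsto (fun x : ℝ => x ^ (e - 1 / k)) atTop atTop := tendsto_rpow_atTop hpos
  obtain ⟨x₁, hx₁⟩ := (htend.eventually_ge_atTop (4 / c)).exists_forall_of_atTop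
  refine ⟨c / 4, by positivity, max (max x₀ x₁) 1, fun x hx => ?_⟩
  have hxx₀ : x₀ ≤ x := le_trans (le_trans (le_max_left _ _) (le_max_left _ _)) hx
  have hxx₁ : x₁ ≤ x := le_trans (le_trans (le_max_right _ _) (le_max_left _ _)) hx
  have hx1 : (1 : ℝ) ≤ x := le_trans (le_max_right _ _) hx
  have hx0 : (0 : ℝ) < x := by linarith
  have h1 := h x hxx₀
  have h2 := A_succ_le (l := l) hk hx1
  have h3 : (1 : ℝ) ≤ x ^ ((1 : ℝ) / k) := Real.one_le_rpow hx1 (by positivity)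
  have h4 : x ^ e = x ^ (e - 1 / k) * x ^ ((1 : ℝ) / k) := by
    rw [← Real.rpow_add hx0]; congr 1; ring
  have h5 := hx₁ x hxx₁
  have h6 : (0 : ℝ) ≤ (A k l x : ℝ) + 1 := by positivity
  have h7 : ((A k l x : ℝ) + 1) * (x ^ ((1 : ℝ) / k) + 1) ≤
      ((A k l x : ℝ) + 1) * (2 * x ^ ((1 : ℝ) / k)) := by
    gcongr; linarith
  have h8 : c * (x ^ (e - 1 / k) * x ^ ((1 : ℝ) / k)) <
      ((A k l x : ℝ) + 1) * (2 * x ^ ((1 : ℝ) / k)) := by
    rw [← h4]; linarith
  have h9 : c * x ^ (e - 1 / k) < 2 * ((A k l x : ℝ) + 1) := by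
    have hp : (0 : ℝ) < x ^ ((1 : ℝ) / k) := by linarith
    by_contra hcon
    push Not at hcon
    have := mul_le_mul_of_nonneg_right hcon hp.le
    linarith
  have h10 : (4 : ℝ) ≤ c * x ^ (e - 1 / k) := by
    rw [div_le_iff₀ hc] at h5
    linarith
  linarith

theorem LowerBound.down {k : ℕ} (hk : 1 ≤ k) (j : ℕ) : ∀ {l : ℕ} {e : ℝ},
    (j : ℝ) / k < e → LowerBound k (l + j) e → LowerBound k l (e - j / k) := by
  induction j with
  | zero => intro l e _ h; simpa using h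
  | succ j ih =>
    intro l e he h
    have hk0 : (0 : ℝ) < k := by exact_mod_cast hk
    have hlt : (1 : ℝ) / k < e := by
      refine lt_of_le_of_lt ?_ he
      rw [div_le_div_iff_of_pos_right hk0]
      push_cast
      linarith [(Nat.cast_nonneg j : (0 : ℝ) ≤ (j : ℝ))]
    have h1 : LowerBound k (l + j) (e - 1 / k) := LowerBound.pred hk hlt h
    have h2 : (j : ℝ) / k < e - 1 / k := by
      have : ((j + 1 : ℕ) : ℝ) / k = j / k + 1 / k := by push_cast; ring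
      rw [this] at he
      linarith
    have h3 := ih h2 h1
    have : e - 1 / k - j / k = e - ((j + 1 : ℕ) : ℝ) / k := by push_cast; ring
    rwa [this] at h3

/-- **Result.** For `1 ≤ l ≤ l' ≤ k` and `0 ≤ δ < l / k`, a lower bound of the order
`x ^ (l' / k - δ)` for `A_{k,l'}` implies one of the order `x ^ (l / k - δ)` for `A_{k,l}`; so Q1
is equivalent to its cases `l = k - 1`, `k ≥ 4`. -/
theorem result :
    (∀ (k l l' : ℕ) (δ : ℝ), l ≤ l' → l' ≤ k → 0 ≤ δ → δ < (l : ℝ) / k →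
      LowerBound k l' ((l' : ℝ) / k - δ) → LowerBound k l ((l : ℝ) / k - δ)) ∧
    ((∀ k l : ℕ, 3 ≤ l → l < k → LowerBound k l ((l : ℝ) / k)) ↔
      (∀ k : ℕ, 4 ≤ k → LowerBound k (k - 1) (((k - 1 : ℕ) : ℝ) / k))) := by
  have key : ∀ (k l l' : ℕ) (δ : ℝ), l ≤ l' → l' ≤ k → 0 ≤ δ → δ < (l : ℝ) / k →
      LowerBound k l' ((l' : ℝ) / k - δ) → LowerBound k l ((l : ℝ) / k - δ) := by
    intro k l l' δ hll' hl'k hδ0 hδ h
    have hk : 1 ≤ k := by
      rcases Nat.eq_zero_or_pos k with rfl | h0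
      · simp at hδ
        linarith
      · exact h0
    have hk0 : (0 : ℝ) < k := by exact_mod_cast hk
    obtain ⟨j, rfl⟩ := Nat.exists_eq_add_of_le hll'
    have h0 : ((l + j : ℕ) : ℝ) / k = (l : ℝ) / k + j / k := by push_cast; ring
    have h1 : ((j : ℕ) : ℝ) / k < ((l + j : ℕ) : ℝ) / k - δ := by
      rw [h0]
      linarith
    have h2 := LowerBound.down hk j h1 h
    have : ((l + j : ℕ) : ℝ) / k - δ - j / k = (l : ℝ) / k - δ := by rw [h0]; ring
    rwa [this] at h2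
  refine ⟨key, fun h k hk => h k (k - 1) (by omega) (by omega), fun h k l hl hlk => ?_⟩
  have hk0 : (0 : ℝ) < k := by exact_mod_cast (by omega : 0 < k)
  have hl0 : (0 : ℝ) < (l : ℝ) / k := by
    have : (0 : ℝ) < l := by exact_mod_cast (by omega : 0 < l)
    positivity
  have h1 := h k (by omega)
  have h2 := key k l (k - 1) 0 (by omega) (by omega) le_rfl hl0 (by simpa using h1)
  simpa using h2

end Pool.Agent.Results.MP_4e3e45_nt.TopCase
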